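import Mathlib

/-!
Project QP of helper57: quadratic forms with a regular matrix have only the trivial relations
between their derivatives.
-/

set_option autoImplicit false

namespace Pool.Agent.Q162.QP

open MvPolynomial

variable {σ : Type} [Fintype σ] [DecidableEq σ]

theorem comp_mul_X (n : ℕ) (i : σ) (P : MvPolynomial σ ℂ) :
    homogeneousComponent (n + 1) (P * X i) = homogeneousComponent n P * X i := by
  ext m
  rw [coeff_homogeneousComponent, coeff_mul_X', coeff_mul_X', coeff_homogeneousComponent]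
  by_cases hi : i ∈ m.support
  · have h1 : (m - Finsupp.single i 1).degree + 1 = m.degree := by
      have h2 : m - Finsupp.single i 1 + Finsupp.single i 1 = m := by
        apply tsub_add_cancel_of_le
        rw [Finsupp.single_le_iff]
        exact Nat.one_le_iff_ne_zero.2 (Finsupp.mem_support_iff.1 hi)
      conv_rhs => rw [← h2]
      rw [map_add, Finsupp.degree_single]
    rw [if_pos hi, if_pos hi]
    by_cases h : m.degree = n + 1
    · rw [if_pos h, if_pos (by omega)]
    · rw [if_neg h, if_neg (by omega)]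
  · rw [if_neg hi, if_neg hi]
    split_ifs <;> rfl

/-- Relations between the variables. -/
theorem koszul_X (a : σ → MvPolynomial σ ℂ) (h : ∑ i, a i * X i = 0) :
    ∃ c : σ → σ → MvPolynomial σ ℂ, (∀ i j, c i j = -c j i) ∧ ∀ i, a i = ∑ j, c i j * X j := by
  obtain ⟨A, hA⟩ : ∃ A : ℕ → σ → MvPolynomial σ ℂ, A = fun k i => homogeneousComponent k (a i) :=
    ⟨_, rfl⟩
  obtain ⟨N, hN⟩ : ∃ N : ℕ, ∀ i, (a i).totalDegree < N := by
    refine ⟨(∑ i, (a i).totalDegree) + 1, fun i => ?_⟩
    exact Nat.lt_succ_of_le (Finset.single_le_sum (f := fun i => (a i).totalDegree)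
      (fun _ _ => Nat.zero_le _) (Finset.mem_univ i))
  have hsum : ∀ i, a i = ∑ k ∈ Finset.range N, A k i := by
    intro i
    conv_lhs => rw [← sum_homogeneousComponent (a i)]
    rw [hA]
    refine Finset.sum_subset (Finset.range_mono (hN i)) fun k _ hk => ?_
    rw [Finset.mem_range, not_lt] at hk
    exact homogeneousComponent_eq_zero _ _ (by omega)
  have h1 : ∀ k, ∑ i, A k i * X i = 0 := by
    intro k
    have h2 := congrArg (homogeneousComponent (k + 1)) h
    rw [map_sum, map_zero] at h2
    rw [← h2, hA]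
    refine Finset.sum_congr rfl fun i _ => ?_
    rw [comp_mul_X]
  have hhom : ∀ k i, (A k i).IsHomogeneous k := by
    intro k i
    rw [hA]
    exact homogeneousComponent_isHomogeneous k (a i)
  have key : ∀ k i, ∑ j, (pderiv j (A k i) - pderiv i (A k j)) * X j = C ((k : ℂ) + 1) * A k i := by
    intro k i
    have h2 := (hhom k i).sum_X_mul_pderiv
    have h3 := congrArg (pderiv i) (h1 k)
    rw [map_sum, map_zero] at h3
    have h4 : ∑ j, pderiv i (A k j * X j) = ∑ j, pderiv i (A k j) * X j + A k i := by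
      have h5 : ∀ j, pderiv i (A k j * X j) =
          pderiv i (A k j) * X j + A k j * (Pi.single i 1 : σ → MvPolynomial σ ℂ) j := by
        intro j
        rw [Derivation.leibniz, pderiv_X, smul_eq_mul, smul_eq_mul]
        ring
      rw [Finset.sum_congr rfl fun j _ => h5 j, Finset.sum_add_distrib]
      congr 1
      rw [Finset.sum_eq_single i]
      · rw [Pi.single_eq_same, mul_one]
      · intro j _ hj
        rw [Pi.single_eq_of_ne hj, mul_zero]
      · intro h6
        exact absurd (Finset.mem_univ i) h6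
    rw [h4] at h3
    have h6 : ∑ j, (pderiv j (A k i) - pderiv i (A k j)) * X j =
        ∑ j, X j * pderiv j (A k i) - ∑ j, pderiv i (A k j) * X j := by
      rw [← Finset.sum_sub_distrib]
      refine Finset.sum_congr rfl fun j _ => ?_
      ring
    rw [h6, h2, nsmul_eq_mul, map_add, C_1, map_natCast]
    linear_combination -h3
  refine ⟨fun i j => ∑ k ∈ Finset.range N,
    C (((k : ℂ) + 1)⁻¹) * (pderiv j (A k i) - pderiv i (A k j)), ?_, ?_⟩
  · intro i j
    rw [← Finset.sum_neg_distrib]
    refine Finset.sum_congr rfl fun k _ => ?_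
    ring
  · intro i
    simp only [Finset.sum_mul]
    rw [Finset.sum_comm, hsum i]
    refine Finset.sum_congr rfl fun k _ => ?_
    have h2 : (k : ℂ) + 1 ≠ 0 := Nat.cast_add_one_ne_zero k
    have h3 : ∑ j, C (((k : ℂ) + 1)⁻¹) * (pderiv j (A k i) - pderiv i (A k j)) * X j =
        C (((k : ℂ) + 1)⁻¹) * ∑ j, (pderiv j (A k i) - pderiv i (A k j)) * X j := by
      rw [Finset.mul_sum]
      refine Finset.sum_congr rfl fun j _ => ?_
      ring
    rw [h3, key, ← mul_assoc, ← C_mul, inv_mul_cancel₀ h2, C_1, one_mul]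

/-- the derivatives of a quadratic form -/
theorem pderiv_quad (F : MvPolynomial σ ℂ) (hF : F.IsHomogeneous 2) (t : σ) :
    pderiv t F = ∑ s, C (coeff 0 (pderiv s (pderiv t F))) * X s := by
  have h1 : (pderiv t F).IsHomogeneous 1 := hF.pderiv
  have h2 := h1.sum_X_mul_pderiv
  rw [one_smul] at h2
  conv_lhs => rw [← h2]
  refine Finset.sum_congr rfl fun s _ => ?_
  have h3 : (pderiv s (pderiv t F)).IsHomogeneous 0 := h1.pderiv
  have h4 : (pderiv s (pderiv t F)).totalDegree = 0 :=
    (totalDegree_zero_iff_isHomogeneous σ).2 h3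
  rw [mul_comm, ← totalDegree_eq_zero_iff_eq_C.1 h4]

/-- The relations between the derivatives. -/
theorem hess (F : MvPolynomial σ ℂ) (hF : F.IsHomogeneous 2)
    (hd : (Matrix.of fun s t => coeff 0 (pderiv s (pderiv t F))).det ≠ 0)
    (a : σ → MvPolynomial σ ℂ) (h : ∑ i, a i * pderiv i F = 0) :
    ∃ c : σ → σ → MvPolynomial σ ℂ, (∀ i j, c i j = -c j i) ∧
      ∀ i, a i = ∑ j, c i j * pderiv j F := by
  obtain ⟨H, hH⟩ : ∃ H : Matrix σ σ ℂ, H = Matrix.of fun s t => coeff 0 (pderiv s (pderiv t F)) :=
    ⟨_, rfl⟩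
  rw [← hH] at hd
  have hHu : IsUnit H.det := isUnit_iff_ne_zero.2 hd
  have hl : ∀ t, pderiv t F = ∑ s, C (H s t) * X s := by
    intro t
    rw [pderiv_quad F hF t, hH]
    rfl
  obtain ⟨K, hK⟩ : ∃ K, K = H⁻¹ := ⟨_, rfl⟩
  have hKH : ∀ i j, ∑ s, K i s * H s j = if i = j then 1 else 0 := by
    intro i j
    have h1 : K * H = 1 := by rw [hK, Matrix.nonsing_inv_mul _ hHu]
    have h2 := congrFun (congrFun h1 i) j
    rw [Matrix.mul_apply, Matrix.one_apply] at h2
    exact h2
  have hHK : ∀ i j, ∑ s, H i s * K s j = if i = j then 1 else 0 := by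
    intro i j
    have h1 : H * K = 1 := by rw [hK, Matrix.mul_nonsing_inv _ hHu]
    have h2 := congrFun (congrFun h1 i) j
    rw [Matrix.mul_apply, Matrix.one_apply] at h2
    exact h2
  -- the new coefficients
  have h1 : ∑ s, (∑ t, C (H s t) * a t) * X s = 0 := by
    rw [← h]
    simp only [hl, Finset.sum_mul, Finset.mul_sum]
    rw [Finset.sum_comm]
    refine Finset.sum_congr rfl fun t _ => Finset.sum_congr rfl fun s _ => ?_
    ring
  obtain ⟨c, hc1, hc2⟩ := koszul_X _ h1
  have hX : ∀ r, (X r : MvPolynomial σ ℂ) = ∑ t, C (K t r) * pderiv t F := by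
    intro r
    simp only [hl, Finset.mul_sum]
    rw [Finset.sum_comm]
    have h2 : ∀ s, ∑ t, C (K t r) * (C (H s t) * X s) =
        (if s = r then X s else 0 : MvPolynomial σ ℂ) := by
      intro s
      have h3 : ∑ t, C (K t r) * (C (H s t) * X s) = C (∑ t, H s t * K t r) * X s := by
        rw [map_sum, Finset.sum_mul]
        refine Finset.sum_congr rfl fun t _ => ?_
        rw [C_mul]
        ring
      rw [h3, hHK]
      split_ifs
      · rw [C_1, one_mul]
      · rw [C_0, zero_mul]
    rw [Finset.sum_congr rfl fun s _ => h2 s, Finset.sum_ite_eq' Finset.univ r,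
      if_pos (Finset.mem_univ r)]
  have ha : ∀ t, a t = ∑ s, C (K t s) * ∑ u, C (H s u) * a u := by
    intro t
    simp only [Finset.mul_sum]
    rw [Finset.sum_comm]
    have h2 : ∀ u, ∑ s, C (K t s) * (C (H s u) * a u) =
        (if t = u then a u else 0 : MvPolynomial σ ℂ) := by
      intro u
      have h3 : ∑ s, C (K t s) * (C (H s u) * a u) = C (∑ s, K t s * H s u) * a u := by
        rw [map_sum, Finset.sum_mul]
        refine Finset.sum_congr rfl fun s _ => ?_
        rw [C_mul]
        ring
      rw [h3, hKH]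
      split_ifs
      · rw [C_1, one_mul]
      · rw [C_0, zero_mul]
    rw [Finset.sum_congr rfl fun s _ => h2 s, Finset.sum_ite_eq Finset.univ t,
      if_pos (Finset.mem_univ t)]
  refine ⟨fun t q => ∑ s, ∑ r, C (K t s) * c s r * C (K q r), ?_, ?_⟩
  · intro t q
    change ∑ s, ∑ r, C (K t s) * c s r * C (K q r) = -∑ s, ∑ r, C (K q s) * c s r * C (K t r)
    rw [Finset.sum_comm, ← Finset.sum_neg_distrib]
    refine Finset.sum_congr rfl fun r _ => ?_
    rw [← Finset.sum_neg_distrib]
    refine Finset.sum_congr rfl fun s _ => ?_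
    rw [hc1 s r]
    ring
  · intro t
    rw [ha t]
    simp only [hc2, Finset.mul_sum, Finset.sum_mul]
    have h2 : ∀ s, ∑ r, C (K t s) * (c s r * X r) =
        ∑ q, ∑ r, C (K t s) * c s r * C (K q r) * pderiv q F := by
      intro s
      rw [Finset.sum_comm]
      refine Finset.sum_congr rfl fun r _ => ?_
      conv_lhs => rw [hX r]
      rw [Finset.mul_sum, Finset.mul_sum]
      refine Finset.sum_congr rfl fun q _ => ?_
      ring
    rw [Finset.sum_congr rfl fun s _ => h2 s, Finset.sum_comm]

end Pool.Agent.Q162.QP
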