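import Mathlib
import Pool.Agent.Q57.QP.Base

/-!
# Project QP: affine changes of coordinates
-/

set_option autoImplicit false
set_option linter.unusedSectionVars false

namespace Pool.Agent.Q162.QP

open MvPolynomial Pool.Agent.Q57.QP Topology
open Pool.Agent.Y229 (SF IsLocalBI)
open Pool.Agent.Q57.MC (Chart Same frac sf_chart sf_iff)

section

variable {K : Type} [Field K] {n : ℕ}

/-- the polynomials `P + M y` -/
noncomputable def aff (P : Fin n → K) (M : Matrix (Fin n) (Fin n) K) (i : Fin n) :
    MvPolynomial (Fin n) K :=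
  C (P i) + ∑ k, C (M i k) * X k

/-- the polynomials `N (x - P)` -/
noncomputable def inva (P : Fin n → K) (N : Matrix (Fin n) (Fin n) K) (t : Fin n) :
    MvPolynomial (Fin n) K :=
  ∑ l, C (N t l) * (X l - C (P l))

theorem aeval_inva (P : Fin n → K) (M N : Matrix (Fin n) (Fin n) K) (h : M * N = 1) (i : Fin n) :
    aeval (inva P N) (aff P M i) = X i := by
  classical
  unfold aff
  rw [map_add, map_sum, aeval_C, algebraMap_eq]
  have h1 : ∀ k, aeval (inva P N) (C (M i k) * X k : MvPolynomial (Fin n) K) =
      ∑ l, C (M i k * N k l) * (X l - C (P l)) := by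
    intro k
    rw [map_mul, aeval_C, aeval_X, algebraMap_eq]
    unfold inva
    rw [Finset.mul_sum]
    refine Finset.sum_congr rfl fun l _ => ?_
    rw [C_mul]
    ring
  rw [Finset.sum_congr rfl fun k _ => h1 k, Finset.sum_comm]
  have h2 : ∀ l, ∑ k, C (M i k * N k l) * (X l - C (P l) : MvPolynomial (Fin n) K) =
      if i = l then X l - C (P l) else 0 := by
    intro l
    rw [← Finset.sum_mul, ← map_sum]
    have h3 : ∑ k, M i k * N k l = (M * N) i l := (Matrix.mul_apply).symm
    rw [h3, h, Matrix.one_apply]
    by_cases h4 : i = l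
    · rw [if_pos h4, if_pos h4, map_one, one_mul]
    · rw [if_neg h4, if_neg h4, map_zero, zero_mul]
  rw [Finset.sum_congr rfl fun l _ => h2 l, Finset.sum_ite_eq, if_pos (Finset.mem_univ i)]
  ring

theorem aeval_aeval (P : Fin n → K) (M N : Matrix (Fin n) (Fin n) K) (h : M * N = 1)
    (f : MvPolynomial (Fin n) K) : aeval (inva P N) (aeval (aff P M) f) = f := by
  have h1 : (aeval (inva P N)).comp (aeval (aff P M)) = AlgHom.id K (MvPolynomial (Fin n) K) := by
    apply MvPolynomial.algHom_ext
    intro i
    rw [AlgHom.comp_apply, aeval_X, aeval_inva P M N h, AlgHom.id_apply]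
  exact DFunLike.congr_fun h1 f

theorem eval_inva (P : Fin n → K) (N : Matrix (Fin n) (Fin n) K) (x : Fin n → K) (t : Fin n) :
    eval x (inva P N t) = ∑ l, N t l * (x l - P l) := by
  unfold inva
  rw [map_sum]
  refine Finset.sum_congr rfl fun l _ => ?_
  rw [map_mul, map_sub, eval_C, eval_X, eval_C]

theorem eval_aeval' (P : Fin n → K) (M N : Matrix (Fin n) (Fin n) K) (h : M * N = 1)
    (f : MvPolynomial (Fin n) K) (x : Fin n → K) :
    eval (fun t => eval x (inva P N t)) (aeval (aff P M) f) = eval x f := by
  conv_rhs => rw [← aeval_aeval P M N h f]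
  generalize aeval (aff P M) f = g
  have h1 : (eval x : MvPolynomial (Fin n) K →+* K).comp
      (aeval (inva P N) : MvPolynomial (Fin n) K →ₐ[K] MvPolynomial (Fin n) K).toRingHom =
      eval (fun t => eval x (inva P N t)) := by
    apply MvPolynomial.ringHom_ext
    · intro a
      simp
    · intro i
      simp
  exact (DFunLike.congr_fun h1 g).symm

theorem map_aff {L : Type} [Field L] (φ : K →+* L) (P : Fin n → K) (M : Matrix (Fin n) (Fin n) K)
    (f : MvPolynomial (Fin n) K) :
    map φ (aeval (aff P M) f) = aeval (aff (fun i => φ (P i)) (M.map φ)) (map φ f) := by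
  have h1 : (map φ : MvPolynomial (Fin n) K →+* MvPolynomial (Fin n) L).comp
      (aeval (aff P M) : MvPolynomial (Fin n) K →ₐ[K] MvPolynomial (Fin n) K).toRingHom =
      (aeval (aff (fun i => φ (P i)) (M.map φ)) : MvPolynomial (Fin n) L →ₐ[L]
        MvPolynomial (Fin n) L).toRingHom.comp (map φ) := by
    apply MvPolynomial.ringHom_ext
    · intro a
      simp
    · intro i
      simp [aff]
  exact DFunLike.congr_fun h1 f

end

/-- the roots -/
theorem sf_aff {r n : ℕ} (F : Fin r → MvPolynomial (Fin n) ℂ) (P : Fin n → ℂ)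
    (M N : Matrix (Fin n) (Fin n) ℂ) (hMN : M * N = 1) (hne : ∃ j, F j ≠ 0) (α : ℂ)
    (h : SF (fun j => aeval (aff P M) (F j)) 0 α) : SF F P α := by
  classical
  have hne' : ∃ j, aeval (aff P M) (F j) ≠ 0 := by
    obtain ⟨j, hj⟩ := hne
    refine ⟨j, fun h0 => hj ?_⟩
    rw [← aeval_aeval P M N hMN (F j), h0, map_zero]
  let A : Chart (Fin n) := ⟨n, r, inva P N, 1, id, fun j => aeval (aff P M) (F j)⟩
  have h1 : ∀ q : MvPolynomial (Fin n) ℂ, frac (inva P N) (1 : MvPolynomial (Fin n) ℂ) q =
      algebraMap (MvPolynomial (Fin n) ℂ) (Localization.Away (1 : MvPolynomial (Fin n) ℂ))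
        (aeval (inva P N) q) := by
    intro q
    have h2 : (IsLocalization.Away.invSelf (1 : MvPolynomial (Fin n) ℂ) :
        Localization.Away (1 : MvPolynomial (Fin n) ℂ)) = 1 := by
      have h3 := IsLocalization.Away.mul_invSelf
        (S := Localization.Away (1 : MvPolynomial (Fin n) ℂ)) (1 : MvPolynomial (Fin n) ℂ)
      rwa [map_one, one_mul] at h3
    unfold frac
    simp only [h2, mul_one]
    have h4 : ((Algebra.ofId (MvPolynomial (Fin n) ℂ)
        (Localization.Away (1 : MvPolynomial (Fin n) ℂ))).restrictScalars ℂ).comp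
        (aeval (inva P N)) = aeval (fun t => algebraMap (MvPolynomial (Fin n) ℂ)
          (Localization.Away (1 : MvPolynomial (Fin n) ℂ)) (inva P N t)) := by
      apply MvPolynomial.algHom_ext
      intro i
      rw [AlgHom.comp_apply, aeval_X, aeval_X]
      rfl
    exact (DFunLike.congr_fun h4 q).symm
  have hfit : A.Fits F := by
    change Same F (fun j => aeval (aff P M) (F j)) (inva P N) 1
    unfold Same
    congr 2
    funext j
    rw [h1, aeval_aeval P M N hMN]
  have hmem : A.Mem P := by
    refine ⟨?_, fun t => ?_, ?_⟩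
    · change eval P (1 : MvPolynomial (Fin n) ℂ) ≠ 0
      rw [map_one]
      exact one_ne_zero
    · change eval P (inva P N t) = 0
      rw [eval_inva]
      exact Finset.sum_eq_zero fun l _ => by rw [sub_self, mul_zero]
    · have h5 : (Matrix.of fun u t => eval P (pderiv u (inva P N t))) = N.transpose := by
        ext u t
        rw [Matrix.of_apply, Matrix.transpose_apply]
        unfold inva
        rw [map_sum, map_sum, Finset.sum_eq_single u]
        · rw [pderiv_C_mul, map_sub, pderiv_X_self, pderiv_C, sub_zero, map_mul, eval_C, map_one,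
            mul_one]
        · intro b _ hb
          rw [pderiv_C_mul, map_sub, pderiv_X_of_ne hb, pderiv_C, sub_zero, mul_zero, map_zero]
        · intro h6
          exact absurd (Finset.mem_univ _) h6
      change (Matrix.of fun u t => eval P (pderiv u (inva P N t))).det ≠ 0
      rw [h5, Matrix.det_transpose]
      intro h6
      have h7 := congrArg Matrix.det hMN
      rw [Matrix.det_mul, h6, mul_zero, Matrix.det_one] at h7
      exact zero_ne_one h7
  exact sf_chart F A hfit hne' P hmem α ((sf_iff _ hne' α).1 h)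

/-- JOB AFF -/
theorem qp_aff : StDiff → StAff := by
  classical
  intro hD p _ φ r n f P M hM hne hL
  set N : Matrix (Fin n) (Fin n) ℚ_[p] := M⁻¹ with hN
  have hMN : M * N = 1 := Matrix.mul_nonsing_inv M (isUnit_iff_ne_zero.2 hM)
  have hL' : LPF φ (fun j => aeval (aff P M) (f j)) 0 := hL
  set m := mS φ (fun j => aeval (aff P M) (f j)) 0 with hm
  have h1 : LP m (nrm f) P := by
    refine hD p n (fun t x => ∑ l, N t l * (x l - P l))
      (fun t => ∑ l, N t l • (ContinuousLinearMap.proj l : (Fin n → ℚ_[p]) →L[ℚ_[p]] ℚ_[p]))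
      id (nrm f) (nrm fun j => aeval (aff P M) (f j)) P m (siz_nrm _) (fun t => ?_) ?_ ?_ ?_
    · have h2 : ∀ l ∈ (Finset.univ : Finset (Fin n)),
          HasStrictFDerivAt (fun x : Fin n → ℚ_[p] => N t l * (x l - P l))
            (N t l • (ContinuousLinearMap.proj l : (Fin n → ℚ_[p]) →L[ℚ_[p]] ℚ_[p])) P := by
        intro l _
        have h3 : HasStrictFDerivAt (fun x : Fin n → ℚ_[p] => x l - P l)
            (ContinuousLinearMap.proj l : (Fin n → ℚ_[p]) →L[ℚ_[p]] ℚ_[p]) P :=
          (ContinuousLinearMap.hasStrictFDerivAt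
            (ContinuousLinearMap.proj l : (Fin n → ℚ_[p]) →L[ℚ_[p]] ℚ_[p])).sub_const (P l)
        exact h3.const_mul (N t l)
      exact HasStrictFDerivAt.fun_sum h2
    · have h5 : (Matrix.of fun u t => (∑ l, N t l • (ContinuousLinearMap.proj l :
          (Fin n → ℚ_[p]) →L[ℚ_[p]] ℚ_[p])) (Pi.single (id u) 1)) = N.transpose := by
        ext u t
        rw [Matrix.of_apply, Matrix.transpose_apply, ContinuousLinearMap.sum_apply,
          Finset.sum_eq_single u]
        · simp
        · intro b _ hb
          simp [hb]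
        · intro h6
          exact absurd (Finset.mem_univ _) h6
      rw [h5, Matrix.det_transpose]
      intro h6
      have h7 := congrArg Matrix.det hMN
      rw [Matrix.det_mul, h6, mul_zero, Matrix.det_one] at h7
      exact zero_ne_one h7
    · refine Filter.Eventually.of_forall fun x => ?_
      unfold nrm
      congr 1
      funext j
      have h2 := eval_aeval' P M N hMN (f j) x
      rw [← h2]
      congr 2
      funext t
      rw [eval_inva]
    · have h2 : (fun t => ∑ l, N t l * (P l - P l)) = 0 := by
        funext t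
        exact Finset.sum_eq_zero fun l _ => by rw [sub_self, mul_zero]
      change LP m (nrm fun j => aeval (aff P M) (f j)) (fun t => ∑ l, N t l * (P l - P l))
      rw [h2]
      exact hL'
  refine h1.mono fun T _ => ?_
  refine mS_le φ _ _ _ T fun h2 => ?_
  unfold mS
  rw [if_pos]
  have h3 : M.map φ * N.map φ = 1 := by
    rw [← Matrix.map_mul, hMN, Matrix.map_one _ (map_zero φ) (map_one φ)]
  refine sf_aff (fun j => map φ (f j)) (fun i => φ (P i)) (M.map φ) (N.map φ) h3 ?_ _ ?_
  · obtain ⟨j, hj⟩ := hne
    refine ⟨j, fun h0 => hj ?_⟩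
    exact (MvPolynomial.map_injective φ φ.injective) (by rw [h0, map_zero])
  · have h4 : (fun j => map φ (aeval (aff P M) (f j))) =
        fun j => aeval (aff (fun i => φ (P i)) (M.map φ)) (map φ (f j)) := by
      funext j
      exact map_aff φ P M (f j)
    have h5 : (fun i : Fin n => φ ((0 : Fin n → ℚ_[p]) i)) = 0 := by
      funext i
      exact map_zero φ
    rw [h4, h5] at h2
    exact h2

end Pool.Agent.Q162.QP
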