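import Mathlib

/-!
Project QP of helper57: linear systems of singular conics.
-/

set_option autoImplicit false

namespace Pool.Agent.Q162.QP

open Matrix

section

variable {K : Type*} [Field K] [CharZero K]

abbrev M3 (K : Type*) := Matrix (Fin 3) (Fin 3) K

/-- Matrices of rank at most one: two by two minors. -/
theorem minor_zero (X : M3 K) (h : X.adjugate = 0) (i k l : Fin 3) :
    X i i * X k l = X i l * X k i := by
  rw [adjugate_fin_three] at h
  have e : ∀ a b, (!![X 1 1 * X 2 2 - X 1 2 * X 2 1, -(X 0 1 * X 2 2) + X 0 2 * X 2 1,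
      X 0 1 * X 1 2 - X 0 2 * X 1 1; -(X 1 0 * X 2 2) + X 1 2 * X 2 0,
      X 0 0 * X 2 2 - X 0 2 * X 2 0, -(X 0 0 * X 1 2) + X 0 2 * X 1 0;
      X 1 0 * X 2 1 - X 1 1 * X 2 0, -(X 0 0 * X 2 1) + X 0 1 * X 2 0,
      X 0 0 * X 1 1 - X 0 1 * X 1 0] : M3 K) a b = 0 := by
    intro a b
    rw [h]
    rfl
  have e00 := e 0 0
  have e01 := e 0 1
  have e02 := e 0 2
  have e10 := e 1 0
  have e11 := e 1 1
  have e12 := e 1 2
  have e20 := e 2 0
  have e21 := e 2 1
  have e22 := e 2 2
  simp at e00 e01 e02 e10 e11 e12 e20 e21 e22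
  fin_cases i <;> fin_cases k <;> fin_cases l <;> simp only [Fin.zero_eta, Fin.mk_one,
    Fin.reduceFinMk] <;>
    first
    | ring1
    | linear_combination e00
    | linear_combination e11
    | linear_combination e22
    | linear_combination e01
    | linear_combination e02
    | linear_combination e10
    | linear_combination e12
    | linear_combination e20
    | linear_combination e21
    | linear_combination -e01
    | linear_combination -e02
    | linear_combination -e10
    | linear_combination -e12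
    | linear_combination -e20
    | linear_combination -e21

/-- Two matrices of rank at most one all of whose combinations have rank at most one. -/
theorem ker_of_rank_one (W : Submodule K (M3 K)) (hs : ∀ X ∈ W, X.IsSymm)
    (hW : ∀ X ∈ W, X.det = 0) (hadj : ∀ X ∈ W, X.adjugate = 0) :
    ∃ v : Fin 3 → K, v ≠ 0 ∧ ∀ X ∈ W, X.mulVec v = 0 := by
  by_cases h0 : ∀ X ∈ W, X = 0
  · refine ⟨fun _ => 1, fun h => one_ne_zero (congrFun h 0), fun X hX => ?_⟩
    rw [h0 X hX, zero_mulVec]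
  push Not at h0
  obtain ⟨A, hA, hA0⟩ := h0
  have hAs := hs A hA
  have hm : ∀ X ∈ W, ∀ i k l, X i i * X k l = X i l * X k i := fun X hX =>
    minor_zero X (hadj X hX)
  have hii : ∃ i, A i i ≠ 0 := by
    by_contra hc
    push Not at hc
    apply hA0
    ext k l
    have h1 := hm A hA k l l
    rw [hc k, zero_mul, hAs.apply k l] at h1
    have h2 : A k l * A k l = 0 := h1.symm
    exact mul_self_eq_zero.1 h2
  obtain ⟨i, hi⟩ := hii
  obtain ⟨v, hv0, hv⟩ := exists_mulVec_eq_zero_iff.2 (hW A hA)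
  refine ⟨v, hv0, fun B hB => ?_⟩
  have hBs := hs B hB
  have pol : ∀ k l, A i i * B k l + B i i * A k l = A i l * B k i + B i l * A k i := by
    intro k l
    have h1 := hm (A + B) (W.add_mem hA hB) i k l
    have h2 := hm A hA i k l
    have h3 := hm B hB i k l
    simp only [Matrix.add_apply] at h1
    linear_combination h1 - h2 - h3
  have hw : ∀ l, A i i * B i l = B i i * A i l := by
    intro l
    have h1 := pol l l
    have h2 := hm A hA i l l
    have h3 := hm B hB i l l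
    have a1 : A l i = A i l := hAs.apply i l
    have b1 : B l i = B i l := hBs.apply i l
    rw [a1, b1] at h1
    rw [a1] at h2
    rw [b1] at h3
    have h4 : (A i i * B i l - B i i * A i l) ^ 2 = 0 := by
      linear_combination (A i i * B i i) * h1 - B i i ^ 2 * h2 - A i i ^ 2 * h3
    exact sub_eq_zero.1 (pow_eq_zero_iff two_ne_zero |>.1 h4)
  have hAv : ∀ k, ∑ l, A k l * v l = 0 := fun k => congrFun hv k
  have hBi : ∑ l, B i l * v l = 0 := by
    have h1 : A i i * ∑ l, B i l * v l = B i i * ∑ l, A i l * v l := by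
      rw [Finset.mul_sum, Finset.mul_sum]
      refine Finset.sum_congr rfl fun l _ => ?_
      linear_combination v l * hw l
    rw [hAv, mul_zero] at h1
    exact (mul_eq_zero.1 h1).resolve_left hi
  funext k
  change ∑ l, B k l * v l = 0
  have h1 : A i i * ∑ l, B k l * v l = (∑ l, A i l * v l) * B k i + (∑ l, B i l * v l) * A k i -
      B i i * ∑ l, A k l * v l := by
    rw [Finset.mul_sum, Finset.sum_mul, Finset.sum_mul, Finset.mul_sum, ← Finset.sum_add_distrib,
      ← Finset.sum_sub_distrib]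
    refine Finset.sum_congr rfl fun l _ => ?_
    linear_combination v l * pol k l
  rw [hAv, hAv, hBi, zero_mul, zero_mul, mul_zero, add_zero, sub_zero] at h1
  exact (mul_eq_zero.1 h1).resolve_left hi

/-- The case of a matrix of rank two with kernel generated by the last vector. -/
theorem rank_two (W : Submodule K (M3 K)) (hs : ∀ X ∈ W, X.IsSymm)
    (hW : ∀ X ∈ W, X.det = 0) (A : M3 K) (hA : A ∈ W) (h2 : ∀ i, A i 2 = 0)
    (hd : A 0 0 * A 1 1 - A 0 1 ^ 2 ≠ 0) :
    (∃ v : Fin 3 → K, v ≠ 0 ∧ ∀ X ∈ W, X.mulVec v = 0) ∨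
      ∃ x : Fin 3 → K, x ≠ 0 ∧ ∀ X ∈ W, ∃ L : Fin 3 → K,
        X = vecMulVec x L + vecMulVec L x := by
  have hAs := hs A hA
  have a10 : A 1 0 = A 0 1 := hAs.apply 0 1
  have a20 : A 2 0 = 0 := by rw [hAs.apply 0 2, h2]
  have a21 : A 2 1 = 0 := by rw [hAs.apply 1 2, h2]
  have a02 := h2 0
  have a12 := h2 1
  have a22 := h2 2
  -- the two equations
  have key : ∀ C ∈ W, C 2 2 = 0 ∧
      A 1 1 * C 0 2 ^ 2 - 2 * A 0 1 * C 0 2 * C 1 2 + A 0 0 * C 1 2 ^ 2 = 0 ∧
      C 0 0 * C 1 2 ^ 2 - 2 * C 0 1 * C 0 2 * C 1 2 + C 1 1 * C 0 2 ^ 2 = 0 := by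
    intro C hC
    have hCs := hs C hC
    have c10 : C 1 0 = C 0 1 := hCs.apply 0 1
    have c20 : C 2 0 = C 0 2 := hCs.apply 0 2
    have c21 : C 2 1 = C 1 2 := hCs.apply 1 2
    have d1 := hW (A + C) (W.add_mem hA hC)
    have d2 := hW (A - C) (W.sub_mem hA hC)
    have d3 := hW C hC
    rw [det_fin_three] at d1 d2 d3
    simp only [Matrix.add_apply, Matrix.sub_apply, a10, a20, a21, a02, a12, a22, c10, c20,
      c21, zero_add, zero_sub] at d1 d2 d3
    have e1 : C 2 2 = 0 := by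
      have h3 : (2 * (A 0 0 * A 1 1 - A 0 1 ^ 2)) * C 2 2 = 0 := by
        linear_combination d1 - d2 - 2 * d3
      rcases mul_eq_zero.1 h3 with h4 | h4
      · exfalso
        rcases mul_eq_zero.1 h4 with h5 | h5
        · exact two_ne_zero h5
        · exact hd h5
      · exact h4
    refine ⟨e1, ?_, ?_⟩
    · rw [e1] at d1 d3
      linear_combination -d1 + d3
    · rw [e1] at d3
      linear_combination -d3
  by_cases hb : ∀ C ∈ W, C 0 2 = 0 ∧ C 1 2 = 0
  · left
    refine ⟨![0, 0, 1], fun h => one_ne_zero (congrFun h 2), fun C hC => ?_⟩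
    obtain ⟨h3, h4⟩ := hb C hC
    have h5 := (key C hC).1
    funext i
    fin_cases i <;> simp [mulVec, dotProduct, Fin.sum_univ_three, h3, h4, h5]
  right
  push Not at hb
  obtain ⟨B, hB, hBb⟩ := hb
  obtain ⟨b1, hb1⟩ : ∃ b1, b1 = B 0 2 := ⟨_, rfl⟩
  obtain ⟨b2, hb2⟩ : ∃ b2, b2 = B 1 2 := ⟨_, rfl⟩
  have hb0 : b1 ≠ 0 ∨ b2 ≠ 0 := by
    by_cases h : b1 = 0
    · right
      rw [hb2]
      exact hBb (by rw [← hb1]; exact h)
    · exact Or.inl h
  -- proportional
  have prop : ∀ C ∈ W, b1 * C 1 2 - b2 * C 0 2 = 0 := by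
    intro C hC
    obtain ⟨-, q1, -⟩ := key B hB
    obtain ⟨-, q2, -⟩ := key C hC
    obtain ⟨-, q3, -⟩ := key (B + C) (W.add_mem hB hC)
    simp only [Matrix.add_apply] at q3
    rw [← hb1, ← hb2] at q1 q3
    have pl : A 1 1 * b1 * C 0 2 - A 0 1 * (b1 * C 1 2 + b2 * C 0 2) + A 0 0 * b2 * C 1 2 = 0 := by
      have h3 : 2 * (A 1 1 * b1 * C 0 2 - A 0 1 * (b1 * C 1 2 + b2 * C 0 2) +
          A 0 0 * b2 * C 1 2) = 0 := by
        linear_combination q3 - q1 - q2
      exact (mul_eq_zero.1 h3).resolve_left two_ne_zero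
    have w1 : (A 1 1 * b1 - A 0 1 * b2) * (b1 * C 1 2 - b2 * C 0 2) = 0 := by
      linear_combination C 1 2 * q1 - b2 * pl
    have w2 : (A 0 0 * b2 - A 0 1 * b1) * (b1 * C 1 2 - b2 * C 0 2) = 0 := by
      linear_combination -C 0 2 * q1 + b1 * pl
    by_contra hne
    have g1 := (mul_eq_zero.1 w1).resolve_right hne
    have g2 := (mul_eq_zero.1 w2).resolve_right hne
    have g3 : (A 0 0 * A 1 1 - A 0 1 ^ 2) * b1 = 0 := by
      linear_combination A 0 0 * g1 + A 0 1 * g2
    have g4 : (A 0 0 * A 1 1 - A 0 1 ^ 2) * b2 = 0 := by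
      linear_combination A 1 1 * g2 + A 0 1 * g1
    rcases hb0 with h | h
    · exact h ((mul_eq_zero.1 g3).resolve_left hd)
    · exact h ((mul_eq_zero.1 g4).resolve_left hd)
  -- the form
  have form0 : ∀ C ∈ W, (C 0 2 ≠ 0 ∨ C 1 2 ≠ 0) →
      C 0 0 * b2 ^ 2 - 2 * C 0 1 * b1 * b2 + C 1 1 * b1 ^ 2 = 0 := by
    intro C hC hne
    obtain ⟨-, -, q3⟩ := key C hC
    have pr := prop C hC
    rcases hne with h | h
    · have h3 : C 0 2 ^ 2 * (C 0 0 * b2 ^ 2 - 2 * C 0 1 * b1 * b2 + C 1 1 * b1 ^ 2) = 0 := by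
        linear_combination b1 ^ 2 * q3 - (C 0 0 * (b1 * C 1 2 + b2 * C 0 2) -
          2 * C 0 1 * C 0 2 * b1) * pr
      exact (mul_eq_zero.1 h3).resolve_left (pow_ne_zero 2 h)
    · have h3 : C 1 2 ^ 2 * (C 0 0 * b2 ^ 2 - 2 * C 0 1 * b1 * b2 + C 1 1 * b1 ^ 2) = 0 := by
        linear_combination b2 ^ 2 * q3 + (C 1 1 * (b1 * C 1 2 + b2 * C 0 2) -
          2 * C 0 1 * C 1 2 * b2) * pr
      exact (mul_eq_zero.1 h3).resolve_left (pow_ne_zero 2 h)
  have form : ∀ C ∈ W, C 0 0 * b2 ^ 2 - 2 * C 0 1 * b1 * b2 + C 1 1 * b1 ^ 2 = 0 := by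
    intro C hC
    by_cases hne : C 0 2 ≠ 0 ∨ C 1 2 ≠ 0
    · exact form0 C hC hne
    push Not at hne
    have h3 := form0 B hB (by rw [← hb1, ← hb2]; exact hb0)
    have h4 := form0 (B + C) (W.add_mem hB hC) (by
      simp only [Matrix.add_apply, hne.1, hne.2, add_zero]
      rw [← hb1, ← hb2]; exact hb0)
    simp only [Matrix.add_apply] at h4
    linear_combination h4 - h3
  refine ⟨![b1, b2, 0], ?_, ?_⟩
  · intro h
    rcases hb0 with h3 | h3
    · exact h3 (congrFun h 0)
    · exact h3 (congrFun h 1)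
  intro C hC
  have hCs := hs C hC
  have c10 : C 1 0 = C 0 1 := hCs.apply 0 1
  have c20 : C 2 0 = C 0 2 := hCs.apply 0 2
  have c21 : C 2 1 = C 1 2 := hCs.apply 1 2
  have c22 := (key C hC).1
  have pr := prop C hC
  have fr := form C hC
  rcases hb0 with h | h
  · refine ⟨![C 0 0 / (2 * b1), (C 0 1 - b2 * (C 0 0 / (2 * b1))) / b1, C 0 2 / b1], ?_⟩
    ext i j
    rw [Matrix.add_apply, vecMulVec_apply, vecMulVec_apply]
    fin_cases i <;> fin_cases j <;>
      simp only [Fin.zero_eta, Fin.mk_one, Fin.reduceFinMk, cons_val_zero, cons_val_one, cons_val,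
        c10, c20, c21, c22, zero_mul, mul_zero, add_zero, zero_add] <;> field_simp <;>
      first
      | ring1
      | linear_combination pr
      | linear_combination fr
      | linear_combination -pr
      | linear_combination -fr
      | linear_combination 2 * fr
  · refine ⟨![(C 0 1 - b1 * (C 1 1 / (2 * b2))) / b2, C 1 1 / (2 * b2), C 1 2 / b2], ?_⟩
    ext i j
    rw [Matrix.add_apply, vecMulVec_apply, vecMulVec_apply]
    fin_cases i <;> fin_cases j <;>
      simp only [Fin.zero_eta, Fin.mk_one, Fin.reduceFinMk, cons_val_zero, cons_val_one, cons_val,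
        c10, c20, c21, c22, zero_mul, mul_zero, add_zero, zero_add] <;> field_simp <;>
      first
      | ring1
      | linear_combination pr
      | linear_combination fr
      | linear_combination -pr
      | linear_combination -fr
      | linear_combination 2 * fr

/-- an invertible matrix with a given last row -/
theorem exists_row (n : Fin 3 → K) (hn : n ≠ 0) : ∃ P : M3 K, P.det ≠ 0 ∧ P 2 = n := by
  by_cases h2 : n 2 = 0
  · by_cases h1 : n 1 = 0
    · have h0 : n 0 ≠ 0 := by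
        intro h0
        apply hn
        funext i
        fin_cases i
        · exact h0
        · exact h1
        · exact h2
      refine ⟨Matrix.of ![![0, 1, 0], ![0, 0, 1], n], ?_, rfl⟩
      have e : (Matrix.of ![![0, 1, 0], ![0, 0, 1], n] : M3 K).det = n 0 := by
        rw [det_fin_three]
        simp
      rw [e]
      exact h0
    · refine ⟨Matrix.of ![![1, 0, 0], ![0, 0, 1], n], ?_, rfl⟩
      have e : (Matrix.of ![![1, 0, 0], ![0, 0, 1], n] : M3 K).det = -n 1 := by
        rw [det_fin_three]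
        simp
      rw [e]
      exact neg_ne_zero.2 h1
  · refine ⟨Matrix.of ![![1, 0, 0], ![0, 1, 0], n], ?_, rfl⟩
    have e : (Matrix.of ![![1, 0, 0], ![0, 1, 0], n] : M3 K).det = n 2 := by
      rw [det_fin_three]
      simp
    rw [e]
    exact h2

theorem vmv_mul (P : M3 K) (x y : Fin 3 → K) :
    P * vecMulVec x y * P.transpose = vecMulVec (P.mulVec x) (P.mulVec y) := by
  ext i j
  simp only [Matrix.mul_apply, vecMulVec_apply, mulVec, dotProduct, transpose_apply,
    Finset.sum_mul, Finset.mul_sum]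
  refine Finset.sum_congr rfl fun a _ => Finset.sum_congr rfl fun b _ => ?_
  ring

/-- Linear spaces of singular symmetric matrices. -/
theorem conics (W : Submodule K (M3 K)) (hs : ∀ X ∈ W, X.IsSymm) (hW : ∀ X ∈ W, X.det = 0) :
    (∃ v : Fin 3 → K, v ≠ 0 ∧ ∀ X ∈ W, X.mulVec v = 0) ∨
      ∃ x : Fin 3 → K, x ≠ 0 ∧ ∀ X ∈ W, ∃ L : Fin 3 → K,
        X = vecMulVec x L + vecMulVec L x := by
  by_cases hadj : ∀ X ∈ W, X.adjugate = 0
  · exact Or.inl (ker_of_rank_one W hs hW hadj)
  push Not at hadj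
  obtain ⟨A, hA, hA0⟩ := hadj
  obtain ⟨n, hn0, hn⟩ := exists_mulVec_eq_zero_iff.2 (hW A hA)
  obtain ⟨P, hP, hPn⟩ := exists_row n hn0
  have hPu : IsUnit P.det := isUnit_iff_ne_zero.2 hP
  have hPtu : IsUnit P.transpose.det := by rw [det_transpose]; exact hPu
  -- the transformed space
  let Φ : M3 K →ₗ[K] M3 K :=
    { toFun := fun X => P * X * P.transpose
      map_add' := fun X Y => by rw [Matrix.mul_add, Matrix.add_mul]
      map_smul' := fun c X => by
        rw [RingHom.id_apply, Matrix.mul_smul, Matrix.smul_mul] }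
  have hΦ : ∀ X, Φ X = P * X * P.transpose := fun X => rfl
  have hs' : ∀ X ∈ W.map Φ, X.IsSymm := by
    rintro _ ⟨X, hX, rfl⟩
    rw [hΦ, Matrix.IsSymm, transpose_mul, transpose_mul, transpose_transpose, (hs X hX).eq,
      Matrix.mul_assoc]
  have hW' : ∀ X ∈ W.map Φ, X.det = 0 := by
    rintro _ ⟨X, hX, rfl⟩
    rw [hΦ, det_mul, det_mul, hW X hX, mul_zero, zero_mul]
  have h2 : ∀ i, (Φ A) i 2 = 0 := by
    intro i
    have h3 : (Φ A) i 2 = ((P * A).mulVec n) i := by
      rw [hΦ, Matrix.mul_apply]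
      change _ = ∑ k, (P * A) i k * n k
      refine Finset.sum_congr rfl fun k _ => ?_
      rw [transpose_apply, hPn]
    rw [h3, ← mulVec_mulVec, hn, mulVec_zero]
    rfl
  have hd : (Φ A) 0 0 * (Φ A) 1 1 - (Φ A) 0 1 ^ 2 ≠ 0 := by
    intro hd
    have hsA := hs' (Φ A) ⟨A, hA, rfl⟩
    have a10 : (Φ A) 1 0 = (Φ A) 0 1 := hsA.apply 0 1
    have a20 : (Φ A) 2 0 = 0 := by rw [hsA.apply 0 2, h2]
    have a21 : (Φ A) 2 1 = 0 := by rw [hsA.apply 1 2, h2]
    have a02 := h2 0
    have a12 := h2 1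
    have a22 := h2 2
    have hz : (Φ A).adjugate = 0 := by
      rw [adjugate_fin_three]
      ext i j
      fin_cases i <;> fin_cases j <;> simp [a10, a20, a21, a02, a12, a22]
      linear_combination hd
    rw [hΦ, adjugate_mul_distrib, adjugate_mul_distrib] at hz
    apply hA0
    have h3 : P.transpose * (P.transpose.adjugate * (A.adjugate * P.adjugate)) * P =
        (P.det * P.det) • A.adjugate := by
      rw [← Matrix.mul_assoc P.transpose, mul_adjugate, det_transpose, Matrix.smul_mul,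
        Matrix.one_mul, Matrix.smul_mul, Matrix.mul_assoc, adjugate_mul, Matrix.mul_smul,
        Matrix.mul_one, smul_smul]
    rw [hz, Matrix.mul_zero, Matrix.zero_mul] at h3
    have h4 := h3.symm
    rw [smul_eq_zero] at h4
    exact h4.resolve_left (mul_ne_zero hP hP)
  rcases rank_two (W.map Φ) hs' hW' (Φ A) ⟨A, hA, rfl⟩ h2 hd with ⟨v, hv0, hv⟩ | ⟨x, hx0, hx⟩
  · left
    refine ⟨P.transpose.mulVec v, ?_, fun X hX => ?_⟩
    · intro h0
      apply hv0
      have h3 : P.transpose⁻¹.mulVec (P.transpose.mulVec v) = v := by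
        rw [mulVec_mulVec, nonsing_inv_mul _ hPtu, one_mulVec]
      rw [← h3, h0, mulVec_zero]
    · have h3 := hv (Φ X) ⟨X, hX, rfl⟩
      rw [hΦ, ← mulVec_mulVec, ← mulVec_mulVec] at h3
      have h4 : P⁻¹.mulVec (P.mulVec (X.mulVec (P.transpose.mulVec v))) =
          X.mulVec (P.transpose.mulVec v) := by
        rw [mulVec_mulVec, nonsing_inv_mul _ hPu, one_mulVec]
      rw [← h4, h3, mulVec_zero]
  · right
    refine ⟨P⁻¹.mulVec x, ?_, fun X hX => ?_⟩
    · intro h0
      apply hx0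
      have h3 : P.mulVec (P⁻¹.mulVec x) = x := by
        rw [mulVec_mulVec, mul_nonsing_inv _ hPu, one_mulVec]
      rw [← h3, h0, mulVec_zero]
    · obtain ⟨L, hL⟩ := hx (Φ X) ⟨X, hX, rfl⟩
      refine ⟨P⁻¹.mulVec L, ?_⟩
      rw [hΦ] at hL
      have h3 : X = P⁻¹ * (P * X * P.transpose) * P⁻¹.transpose := by
        rw [transpose_nonsing_inv, ← Matrix.mul_assoc, ← Matrix.mul_assoc,
          nonsing_inv_mul _ hPu, Matrix.one_mul, Matrix.mul_assoc, mul_nonsing_inv _ hPtu,
          Matrix.mul_one]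
      rw [hL, Matrix.mul_add, Matrix.add_mul, vmv_mul, vmv_mul] at h3
      exact h3

/-- Families. -/
theorem conics_fam {r : ℕ} (A : Fin r → M3 K) (hA : ∀ j, (A j).IsSymm) :
    (∃ lam : Fin r → K, (∑ j, lam j • A j).det ≠ 0) ∨
    (∃ v : Fin 3 → K, v ≠ 0 ∧ ∀ j, (A j).mulVec v = 0) ∨
    (∃ (x : Fin 3 → K) (L : Fin r → Fin 3 → K), x ≠ 0 ∧
      ∀ j, A j = vecMulVec x (L j) + vecMulVec (L j) x) := by
  by_cases hdet : ∃ lam : Fin r → K, (∑ j, lam j • A j).det ≠ 0
  · exact Or.inl hdet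
  push Not at hdet
  right
  have hs : ∀ X ∈ Submodule.span K (Set.range A), X.IsSymm := by
    intro X hX
    rw [Submodule.mem_span_range_iff_exists_fun] at hX
    obtain ⟨c, rfl⟩ := hX
    rw [Matrix.IsSymm, transpose_sum]
    refine Finset.sum_congr rfl fun j _ => ?_
    rw [transpose_smul, (hA j).eq]
  have hW : ∀ X ∈ Submodule.span K (Set.range A), X.det = 0 := by
    intro X hX
    rw [Submodule.mem_span_range_iff_exists_fun] at hX
    obtain ⟨c, rfl⟩ := hX
    exact hdet c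
  have hmem : ∀ j, A j ∈ Submodule.span K (Set.range A) := fun j =>
    Submodule.subset_span ⟨j, rfl⟩
  rcases conics _ hs hW with ⟨v, hv0, hv⟩ | ⟨x, hx0, hx⟩
  · exact Or.inl ⟨v, hv0, fun j => hv _ (hmem j)⟩
  · right
    choose L hL using fun j => hx (A j) (hmem j)
    exact ⟨x, L, hx0, hL⟩

end

end Pool.Agent.Q162.QP
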