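import Mathlib
import Pool.Agent.Q57.QP.Stm
import Pool.Agent.Q162.QP.Conic
import Pool.Agent.Q162.QP.Kos

/-!
# Project QP: jobs CONICS and HESS
-/

set_option autoImplicit false

namespace Pool.Agent.Q162.QP

open MvPolynomial Pool.Agent.Q57.QP

/-- JOB CONICS -/
theorem qp_conics : StConics := fun _ _ _ _ A hA => conics_fam A hA

/-- JOB HESS -/
theorem qp_hess : StHess := by
  intro σ _ _ F hF hd a ha
  obtain ⟨c, hc, h⟩ := hess F hF hd a ha
  refine ⟨1, c, one_ne_zero, fun i _ => ?_, hc, fun i _ => ?_⟩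
  · rw [← C_1, degreeOf_C]
  · rw [one_mul]
    exact h i

end Pool.Agent.Q162.QP
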